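import Pool.Agent.H67.NR.Tools

namespace Pool.NR

universe u v

open T67

theorem bas : BASStmt.{u} := by
  intro p _ R _ T hR hT g hg h n hn
  have hp : 0 < p := (Fact.out : p.Prime).pos
  obtain ⟨c, d, hd⟩ := digits hp hT n
  have hbij := digits_bij hp hR hT hg h
  have h1 : cmb g (fun j => ((d j : ℕ) : ℤ)) = 0 := by
    have : cmb g n = 0 := hn
    rw [hd, cmb_add, cmb_rel h, zero_add] at this
    exact this
  have h2 : d = fun _ => ⟨0, hp⟩ := by
    apply hbij.1
    change cmb g (fun j => ((d j : ℕ) : ℤ)) = cmb g (fun j => (0 : ℤ))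
    rw [h1]
    simp [cmb]
  refine (inL_iff p T n).2 ⟨c, ?_⟩
  rw [hd, h2]
  funext j
  simp

end Pool.NR
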