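import Pool.Agent.H67.NR.Tools

namespace Pool.NR

universe u v

open T67

theorem iso (hb : BASStmt.{u}) : ISOStmt.{u, v} := by
  intro p _ R S _ _ T hR hS hT hgR hgS
  have hp : 0 < p := (Fact.out : p.Prime).pos
  obtain ⟨g, hg, h, hm⟩ := hgR
  obtain ⟨g', hg', h', hm'⟩ := hgS
  have key : ∀ n : Fin 4 → ℤ, cmb g n = 0 → cmb g' n = 0 := by
    intro n hn
    obtain ⟨c, hc⟩ := (inL_iff p T n).1 (hb p R T hR hT g hg h n hn)
    rw [hc]; exact cmb_rel h' c
  choose f hf using fun r : R => exists_cmb hg r
  have hf2 : ∀ n, cmb g' (f (cmb g n)) = cmb g' n := by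
    intro n
    have h1 : cmb g (f (cmb g n) - n) = 0 := by rw [cmb_sub, hf, sub_self]
    have h2 := key _ h1
    rwa [cmb_sub, sub_eq_zero] at h2
  let F : R →ₙ+* S :=
    { toFun := fun r => cmb g' (f r)
      map_mul' := by
        intro x y
        change cmb g' (f (x * y)) = cmb g' (f x) * cmb g' (f y)
        rw [cmb_mul hm', ← hf2 (mulT T (f x) (f y)), ← cmb_mul hm, hf, hf]
      map_zero' := by
        change cmb g' (f 0) = 0
        have := hf2 0
        simpa [cmb] using this
      map_add' := by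
        intro x y
        change cmb g' (f (x + y)) = cmb g' (f x) + cmb g' (f y)
        rw [← cmb_add, ← hf2 (f x + f y), cmb_add, hf, hf] }
  have hsurj : Function.Surjective F := by
    intro s
    obtain ⟨n, rfl⟩ := exists_cmb hg' s
    exact ⟨cmb g n, hf2 n⟩
  have hfR : Finite R := Nat.finite_of_card_ne_zero (by rw [hR]; positivity)
  have hbij : Function.Bijective F :=
    Function.Surjective.bijective_of_nat_card_le hsurj (by rw [hR, hS])
  exact ⟨RingEquiv.ofBijective F hbij⟩

end Pool.NR
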