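import Pool.Agent.H67.NR.Tools

namespace Pool.NR

open T67

namespace RQ67

theorem mulT_add_left (T : Tab) (m m' n : Fin 4 → ℤ) :
    mulT T (m + m') n = mulT T m n + mulT T m' n := by
  funext k
  simp [mulT, add_mul, Finset.sum_add_distrib]

theorem mulT_add_right (T : Tab) (m n n' : Fin 4 → ℤ) :
    mulT T m (n + n') = mulT T m n + mulT T m n' := by
  funext k
  simp [mulT, add_mul, mul_add, Finset.sum_add_distrib]

theorem mulT_neg_left (T : Tab) (m n : Fin 4 → ℤ) : mulT T (-m) n = - mulT T m n := by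
  funext k
  simp [mulT]

theorem mulT_neg_right (T : Tab) (m n : Fin 4 → ℤ) : mulT T m (-n) = - mulT T m n := by
  funext k
  simp [mulT]

theorem mulT_zero_left (T : Tab) (n : Fin 4 → ℤ) : mulT T 0 n = 0 := by
  funext k; simp [mulT]

theorem mulT_zero_right (T : Tab) (n : Fin 4 → ℤ) : mulT T n 0 = 0 := by
  funext k; simp [mulT]

/-- unit vectors -/
def ee (i : Fin 4) : Fin 4 → ℤ := Pi.single i 1

theorem mulT_ee (T : Tab) (i j : Fin 4) : mulT T (ee i) (ee j) = fun k => (T.M i j k : ℤ) := by
  funext k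
  simp [mulT, ee, Pi.single_apply]

/-- the relation homomorphism -/
def relHom (p : ℕ) (T : Tab) : (Fin 4 → ℤ) →+ (Fin 4 → ℤ) where
  toFun := rel p T
  map_zero' := by funext j; simp [rel]
  map_add' := by
    intro a b
    funext j
    simp [rel, add_mul, mul_add, Finset.sum_add_distrib]
    ring

/-- the relation subgroup -/
def Ls (p : ℕ) (T : Tab) : AddSubgroup (Fin 4 → ℤ) := (relHom p T).range

theorem mem_Ls {p : ℕ} {T : Tab} {n : Fin 4 → ℤ} : n ∈ Ls p T ↔ InL p T n := by
  rw [inL_iff]
  constructor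
  · rintro ⟨c, hc⟩; exact ⟨c, hc.symm⟩
  · rintro ⟨c, rfl⟩; exact ⟨c, rfl⟩

theorem of_basis (S : AddSubgroup (Fin 4 → ℤ)) (h : ∀ i, ee i ∈ S) (m : Fin 4 → ℤ) : m ∈ S := by
  have : m = ∑ i, m i • ee i := by
    funext j
    simp [ee, Finset.sum_apply, Pi.single_apply]
  rw [this]
  exact sum_mem fun i _ => S.zsmul_mem (h i) _

/-- subgroup of `m` with `f m ∈ L` for additive `f`. -/
def pre (L : AddSubgroup (Fin 4 → ℤ)) (f : (Fin 4 → ℤ) → (Fin 4 → ℤ))
    (hf : ∀ a b, f (a + b) = f a + f b) : AddSubgroup (Fin 4 → ℤ) :=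
  L.comap (AddMonoidHom.mk' f hf)

theorem mem_pre {L : AddSubgroup (Fin 4 → ℤ)} {f : (Fin 4 → ℤ) → (Fin 4 → ℤ)}
    {hf : ∀ a b, f (a + b) = f a + f b} {m : Fin 4 → ℤ} : m ∈ pre L f hf ↔ f m ∈ L := Iff.rfl

variable {p : ℕ} {T : Tab}

theorem mul_rel_left (h : Cons p T) (c n : Fin 4 → ℤ) : mulT T (rel p T c) n ∈ Ls p T := by
  have h1 : ∀ c n, mulT T (rel p T c) n ∈ Ls p T := by
    intro c
    apply of_basis (pre (Ls p T) (fun n => mulT T (rel p T c) n) (fun a b => mulT_add_right T _ a b))
    intro j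
    rw [mem_pre]
    revert c
    apply of_basis (pre (Ls p T) (fun c => mulT T (rel p T c) (ee j)) (fun a b => by
      have : rel p T (a + b) = rel p T a + rel p T b := (relHom p T).map_add a b
      rw [this, mulT_add_left]))
    intro i
    rw [mem_pre, mem_Ls]
    have := h.2.2.1 i j
    convert this using 1
    funext k
    simp [mulT, rel, ee, Pi.single_apply, sub_mul, Finset.sum_sub_distrib]
  exact h1 c n

theorem mul_rel_right (h : Cons p T) (c n : Fin 4 → ℤ) : mulT T n (rel p T c) ∈ Ls p T := by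
  have h1 : ∀ c n, mulT T n (rel p T c) ∈ Ls p T := by
    intro c
    apply of_basis (pre (Ls p T) (fun n => mulT T n (rel p T c)) (fun a b => mulT_add_left T a b _))
    intro i
    rw [mem_pre]
    revert c
    apply of_basis (pre (Ls p T) (fun c => mulT T (ee i) (rel p T c)) (fun a b => by
      have : rel p T (a + b) = rel p T a + rel p T b := (relHom p T).map_add a b
      rw [this, mulT_add_right]))
    intro j
    rw [mem_pre, mem_Ls]
    have := h.2.2.2.1 i j
    convert this using 1
    funext k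
    simp [mulT, rel, ee, Pi.single_apply, sub_mul, Finset.sum_sub_distrib]
  exact h1 c n

theorem mul_mem_left (h : Cons p T) {m : Fin 4 → ℤ} (hm : m ∈ Ls p T) (n : Fin 4 → ℤ) :
    mulT T m n ∈ Ls p T := by
  obtain ⟨c, rfl⟩ := hm; exact mul_rel_left h c n

theorem mul_mem_right (h : Cons p T) {m : Fin 4 → ℤ} (hm : m ∈ Ls p T) (n : Fin 4 → ℤ) :
    mulT T n m ∈ Ls p T := by
  obtain ⟨c, rfl⟩ := hm; exact mul_rel_right h c n

theorem assoc_mem (h : Cons p T) (a b c : Fin 4 → ℤ) :
    mulT T (mulT T a b) c - mulT T a (mulT T b c) ∈ Ls p T := by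
  revert a
  apply of_basis (pre (Ls p T) (fun a => mulT T (mulT T a b) c - mulT T a (mulT T b c))
    (fun x y => by simp only [mulT_add_left]; abel))
  intro i
  rw [mem_pre]
  revert b
  apply of_basis (pre (Ls p T) (fun b => mulT T (mulT T (ee i) b) c - mulT T (ee i) (mulT T b c))
    (fun x y => by simp only [mulT_add_left, mulT_add_right]; abel))
  intro j
  rw [mem_pre]
  revert c
  apply of_basis (pre (Ls p T) (fun c => mulT T (mulT T (ee i) (ee j)) c -
    mulT T (ee i) (mulT T (ee j) c)) (fun x y => by simp only [mulT_add_right]; abel))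
  intro k
  rw [mem_pre, mem_Ls]
  have := h.2.2.2.2 i j k
  convert this using 1
  rw [mulT_ee, mulT_ee]
  funext m
  simp [mulT, ee, Pi.single_apply]

/-- the quotient -/
def Q (p : ℕ) (T : Tab) : Type := (Fin 4 → ℤ) ⧸ Ls p T

instance : AddCommGroup (Q p T) := inferInstanceAs (AddCommGroup ((Fin 4 → ℤ) ⧸ Ls p T))

/-- the projection -/
def mk (p : ℕ) (T : Tab) : (Fin 4 → ℤ) →+ Q p T := QuotientAddGroup.mk' (Ls p T)

theorem mk_surj (x : Q p T) : ∃ n, mk p T n = x := QuotientAddGroup.mk'_surjective _ x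

theorem mk_eq {a b : Fin 4 → ℤ} : mk p T a = mk p T b ↔ a - b ∈ Ls p T := by
  rw [← sub_eq_zero, ← map_sub]
  exact QuotientAddGroup.eq_zero_iff (a - b)

theorem mk_eq_zero {a : Fin 4 → ℤ} : mk p T a = 0 ↔ a ∈ Ls p T :=
  QuotientAddGroup.eq_zero_iff a

/-- product of classes -/
noncomputable def mulQ (x y : Q p T) : Q p T :=
  mk p T (mulT T (Classical.choose (mk_surj x)) (Classical.choose (mk_surj y)))

theorem mulQ_mk (h : Cons p T) (a b : Fin 4 → ℤ) :
    mulQ (mk p T a) (mk p T b) = mk p T (mulT T a b) := by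
  have ha := Classical.choose_spec (mk_surj (mk p T a))
  have hb := Classical.choose_spec (mk_surj (mk p T b))
  rw [mk_eq] at ha hb
  unfold mulQ
  set a' := Classical.choose (mk_surj (mk p T a))
  set b' := Classical.choose (mk_surj (mk p T b))
  rw [mk_eq]
  have e : mulT T a' b' - mulT T a b = mulT T (a' - a) b' + mulT T a (b' - b) := by
    rw [sub_eq_add_neg a' a, sub_eq_add_neg b' b, mulT_add_left, mulT_add_right, mulT_neg_left,
      mulT_neg_right]
    abel
  rw [e]
  exact add_mem (mul_mem_left h ha _) (mul_mem_right h hb _)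

/-- the ring -/
@[reducible] noncomputable def ringQ (h : Cons p T) : NonUnitalRing (Q p T) :=
  { (inferInstance : AddCommGroup (Q p T)) with
    mul := mulQ
    left_distrib := by
      intro x y z
      obtain ⟨a, rfl⟩ := mk_surj x
      obtain ⟨b, rfl⟩ := mk_surj y
      obtain ⟨c, rfl⟩ := mk_surj z
      change mulQ _ (_ + _) = mulQ _ _ + mulQ _ _
      rw [← map_add, mulQ_mk h, mulQ_mk h, mulQ_mk h, mulT_add_right, map_add]
    right_distrib := by
      intro x y z
      obtain ⟨a, rfl⟩ := mk_surj x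
      obtain ⟨b, rfl⟩ := mk_surj y
      obtain ⟨c, rfl⟩ := mk_surj z
      change mulQ (_ + _) _ = mulQ _ _ + mulQ _ _
      rw [← map_add, mulQ_mk h, mulQ_mk h, mulQ_mk h, mulT_add_left, map_add]
    zero_mul := by
      intro x
      obtain ⟨a, rfl⟩ := mk_surj x
      change mulQ 0 _ = 0
      rw [← map_zero (mk p T), mulQ_mk h, mulT_zero_left]
    mul_zero := by
      intro x
      obtain ⟨a, rfl⟩ := mk_surj x
      change mulQ _ 0 = 0
      rw [← map_zero (mk p T), mulQ_mk h, mulT_zero_right]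
    mul_assoc := by
      intro x y z
      obtain ⟨a, rfl⟩ := mk_surj x
      obtain ⟨b, rfl⟩ := mk_surj y
      obtain ⟨c, rfl⟩ := mk_surj z
      change mulQ (mulQ _ _) _ = mulQ _ (mulQ _ _)
      rw [mulQ_mk h, mulQ_mk h, mulQ_mk h, mulQ_mk h, mk_eq]
      exact assoc_mem h a b c }

theorem nilp (h : Cons p T) : @IsNilp (Q p T) (ringQ h) := by
  let _ := ringQ h
  refine ⟨4, ?_⟩
  have key : ∀ (l : List (Q p T)) (t : ℕ) (m : Fin 4 → ℤ), (∀ k : Fin 4, (k : ℕ) < t → m k = 0) →
      ∃ m' : Fin 4 → ℤ, l.foldl (· * ·) (mk p T m) = mk p T m' ∧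
        ∀ k : Fin 4, (k : ℕ) < t + l.length → m' k = 0 := by
    intro l
    induction l with
    | nil => intro t m hm; exact ⟨m, rfl, by simpa using hm⟩
    | cons y l ih =>
      intro t m hm
      obtain ⟨n, rfl⟩ := mk_surj y
      have e : mk p T m * mk p T n = mk p T (mulT T m n) := mulQ_mk h m n
      obtain ⟨m', h1, h2⟩ := ih (t + 1) (mulT T m n) (by
        intro k hk
        unfold mulT
        refine Finset.sum_eq_zero fun i _ => Finset.sum_eq_zero fun j _ => ?_
        by_cases hi : (i : ℕ) < t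
        · rw [hm i hi]; ring
        · have : T.M i j k = 0 := h.2.1 i j k (Or.inl (by
            rw [Fin.le_def]; omega))
          rw [this]; simp)
      refine ⟨m', ?_, ?_⟩
      · rw [List.foldl_cons, e, h1]
      · intro k hk
        apply h2
        simp only [List.length_cons] at hk
        omega
  intro x l hl
  obtain ⟨m, rfl⟩ := mk_surj x
  obtain ⟨m', h1, h2⟩ := key l 0 m (by intro k hk; omega)
  rw [h1]
  have : m' = 0 := by
    funext k
    exact h2 k (by have := k.2; omega)
  rw [this, map_zero]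

theorem closure_top : AddSubgroup.closure (Set.range fun i => mk p T (ee i)) = ⊤ := by
  rw [eq_top_iff]
  intro x _
  obtain ⟨m, rfl⟩ := mk_surj x
  have : m = ∑ i, m i • ee i := by
    funext j
    simp [ee, Finset.sum_apply, Pi.single_apply]
  rw [this, map_sum]
  refine sum_mem fun i _ => ?_
  rw [map_zsmul]
  have h1 : mk p T (ee i) ∈ AddSubgroup.closure (Set.range fun i => mk p T (ee i)) :=
    AddSubgroup.subset_closure (Set.mem_range_self i)
  exact AddSubgroup.zsmul_mem _ h1 _

theorem rels (i : Fin 4) : p • mk p T (ee i) = ∑ j, T.P i j • mk p T (ee j) := by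
  simp only [← map_nsmul, ← map_sum]
  rw [mk_eq, mem_Ls, inL_iff]
  refine ⟨ee i, ?_⟩
  funext j
  simp [rel, ee, Pi.single_apply, Finset.sum_apply]

theorem card (hp : 0 < p) (hT : TabUp T) : Nat.card (Q p T) = p ^ 4 := by
  have hz : ∀ i j : Fin 4, j ≤ i → (T.P i j : ℤ) = 0 := fun i j h => by
    exact_mod_cast hT i j h
  have hb : Function.Bijective
      (fun d : Fin 4 → Fin p => mk p T (fun j => ((d j : ℕ) : ℤ))) := by
    constructor
    · intro d d' hd
      simp only at hd
      rw [mk_eq, mem_Ls, inL_iff] at hd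
      obtain ⟨c, hc⟩ := hd
      have aux : ∀ x y : Fin p, ∀ z : ℤ, ((x : ℕ) : ℤ) - ((y : ℕ) : ℤ) = p * z → x = y ∧ z = 0 := by
        intro x y z hxy
        have h1 := x.2
        have h2 := y.2
        have hz0 : z = 0 := by
          by_contra hne
          rcases lt_or_gt_of_ne hne with h | h
          · have : (p : ℤ) * z ≤ p * (-1) := by
              apply mul_le_mul_of_nonneg_left (by omega) (by positivity)
            omega
          · have : (p : ℤ) * 1 ≤ p * z := by
              apply mul_le_mul_of_nonneg_left (by omega) (by positivity)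
            omega
        refine ⟨?_, hz0⟩
        rw [hz0] at hxy
        apply Fin.ext
        omega
      have e0 := congrFun hc 0
      have e1 := congrFun hc 1
      have e2 := congrFun hc 2
      have e3 := congrFun hc 3
      simp only [Pi.sub_apply, rel, Fin.sum_univ_four] at e0 e1 e2 e3
      rw [hz 0 0 (by decide), hz 1 0 (by decide), hz 2 0 (by decide), hz 3 0 (by decide)] at e0
      rw [hz 1 1 (by decide), hz 2 1 (by decide), hz 3 1 (by decide)] at e1
      rw [hz 2 2 (by decide), hz 3 2 (by decide)] at e2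
      rw [hz 3 3 (by decide)] at e3
      obtain ⟨f0, c0⟩ := aux _ _ (c 0) (by rw [e0]; ring)
      rw [c0] at e1 e2 e3
      obtain ⟨f1, c1⟩ := aux _ _ (c 1) (by rw [e1]; ring)
      rw [c1] at e2 e3
      obtain ⟨f2, c2⟩ := aux _ _ (c 2) (by rw [e2]; ring)
      rw [c2] at e3
      obtain ⟨f3, c3⟩ := aux _ _ (c 3) (by rw [e3]; ring)
      funext j
      fin_cases j
      · exact f0
      · exact f1
      · exact f2
      · exact f3
    · intro x
      obtain ⟨m, rfl⟩ := mk_surj x
      obtain ⟨c, d, hd⟩ := digits hp hT m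
      refine ⟨d, ?_⟩
      change mk p T _ = mk p T m
      rw [mk_eq, mem_Ls, inL_iff]
      refine ⟨-c, ?_⟩
      have : rel p T (-c) = - rel p T c := (relHom p T).map_neg c
      rw [this, hd]
      abel
  rw [← Nat.card_congr (Equiv.ofBijective _ hb)]
  simp

end RQ67

open RQ67

theorem rq : RQStmt := by
  intro p _ T h
  have hp : 0 < p := (Fact.out : p.Prime).pos
  refine ⟨RQ67.Q p T, ringQ h, card hp h.1, nilp h, ?_⟩
  let _ := ringQ h
  refine ⟨fun i => mk p T (ee i), closure_top, rels, ?_⟩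
  intro i j
  have : mk p T (ee i) * mk p T (ee j) = mk p T (mulT T (ee i) (ee j)) := mulQ_mk h _ _
  rw [this, mulT_ee]
  have e : (fun k => (T.M i j k : ℤ)) = ∑ k, T.M i j k • ee k := by
    funext m
    simp [ee, Pi.single_apply, Finset.sum_apply]
  rw [e, map_sum]
  exact Finset.sum_congr rfl fun k _ => map_nsmul (mk p T) _ _

end Pool.NR
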