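import Pool.Agent.H97.NR.Stmts

/-! Tools for the ring modules of project NR. -/

namespace Pool.NR.T67

/-- The combination `∑ n_i g_i`. -/
def cmb {R : Type*} [AddCommGroup R] (g : Fin 4 → R) (n : Fin 4 → ℤ) : R := ∑ i, n i • g i

theorem cmb_add {R : Type*} [AddCommGroup R] (g : Fin 4 → R) (m n : Fin 4 → ℤ) :
    cmb g (m + n) = cmb g m + cmb g n := by
  simp [cmb, add_smul, Finset.sum_add_distrib]

theorem cmb_sub {R : Type*} [AddCommGroup R] (g : Fin 4 → R) (m n : Fin 4 → ℤ) :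
    cmb g (m - n) = cmb g m - cmb g n := by
  simp [cmb, sub_smul, Finset.sum_sub_distrib]

/-- The relation vector with coefficients `c`. -/
def rel (p : ℕ) (T : Tab) (c : Fin 4 → ℤ) : Fin 4 → ℤ :=
  fun j => p * c j - ∑ i, c i * (T.P i j : ℤ)

theorem inL_iff (p : ℕ) (T : Tab) (n : Fin 4 → ℤ) : InL p T n ↔ ∃ c, n = rel p T c := by
  constructor
  · rintro ⟨c, hc⟩; exact ⟨c, funext hc⟩
  · rintro ⟨c, rfl⟩; exact ⟨c, fun j => rfl⟩

theorem cmb_rel {R : Type*} [AddCommGroup R] {p : ℕ} {T : Tab} {g : Fin 4 → R}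
    (h : ∀ i, p • g i = ∑ j, T.P i j • g j) (c : Fin 4 → ℤ) : cmb g (rel p T c) = 0 := by
  have h2 : ∀ i, (p : ℤ) • g i = ∑ j, (T.P i j : ℤ) • g j := by
    intro i
    have := h i
    simp only [natCast_zsmul]
    exact this
  have : cmb g (rel p T c) = ∑ i, c i • ((p : ℤ) • g i - ∑ j, (T.P i j : ℤ) • g j) := by
    simp only [cmb, rel, sub_smul, Finset.sum_sub_distrib, smul_sub, Finset.smul_sum,
      Finset.sum_smul, mul_smul]
    congr 1
    · refine Finset.sum_congr rfl fun i _ => ?_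
      rw [smul_comm]
    · rw [Finset.sum_comm]
  rw [this]
  exact Finset.sum_eq_zero fun i _ => by rw [h2 i, sub_self, smul_zero]

/-- Every vector is congruent to a vector of digits. -/
theorem digits {p : ℕ} (hp : 0 < p) {T : Tab} (hT : TabUp T) (n : Fin 4 → ℤ) :
    ∃ (c : Fin 4 → ℤ) (d : Fin 4 → Fin p), n = rel p T c + fun j => ((d j : ℕ) : ℤ) := by
  have hp' : (0 : ℤ) < p := by exact_mod_cast hp
  have hz : ∀ i j : Fin 4, j ≤ i → (T.P i j : ℤ) = 0 := fun i j h => by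
    exact_mod_cast hT i j h
  set c0 := n 0 / p with hc0
  set n1 := n 1 + c0 * T.P 0 1 with hn1
  set c1 := n1 / p with hc1
  set n2 := n 2 + c0 * T.P 0 2 + c1 * T.P 1 2 with hn2
  set c2 := n2 / p with hc2
  set n3 := n 3 + c0 * T.P 0 3 + c1 * T.P 1 3 + c2 * T.P 2 3 with hn3
  set c3 := n3 / p with hc3
  have hd : ∀ x : ℤ, ∃ k : Fin p, ((k : ℕ) : ℤ) = x % p := by
    intro x
    have h1 := Int.emod_nonneg x hp'.ne'
    have h2 := Int.emod_lt_of_pos x hp'
    refine ⟨⟨(x % p).toNat, by omega⟩, ?_⟩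
    simp [Int.toNat_of_nonneg h1]
  obtain ⟨d0, h0⟩ := hd (n 0)
  obtain ⟨d1, h1⟩ := hd n1
  obtain ⟨d2, h2⟩ := hd n2
  obtain ⟨d3, h3⟩ := hd n3
  refine ⟨![c0, c1, c2, c3], ![d0, d1, d2, d3], ?_⟩
  have e0 := Int.emod_add_mul_ediv (n 0) p
  have e1 := Int.emod_add_mul_ediv n1 p
  have e2 := Int.emod_add_mul_ediv n2 p
  have e3 := Int.emod_add_mul_ediv n3 p
  funext j
  fin_cases j
  · simp [rel, Fin.sum_univ_four, h0, hz 0 0 (by decide), hz 1 0 (by decide),
      hz 2 0 (by decide), hz 3 0 (by decide)]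
    rw [hc0]; linarith
  · simp [rel, Fin.sum_univ_four, h1, hz 1 1 (by decide),
      hz 2 1 (by decide), hz 3 1 (by decide)]
    rw [← hc1] at e1
    linarith
  · simp [rel, Fin.sum_univ_four, h2, hz 2 2 (by decide), hz 3 2 (by decide)]
    rw [← hc2] at e2
    linarith
  · simp [rel, Fin.sum_univ_four, h3, hz 3 3 (by decide)]
    rw [← hc3] at e3
    linarith

theorem exists_cmb {R : Type*} [AddCommGroup R] {g : Fin 4 → R}
    (hg : AddSubgroup.closure (Set.range g) = ⊤) (r : R) : ∃ n, cmb g n = r := by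
  have h : r ∈ AddSubgroup.closure (Set.range g) := by rw [hg]; trivial
  induction h using AddSubgroup.closure_induction with
  | mem x hx =>
    obtain ⟨i, rfl⟩ := hx
    exact ⟨Pi.single i 1, by simp [cmb, Pi.single_apply, ite_smul]⟩
  | zero => exact ⟨0, by simp [cmb]⟩
  | add x y _ _ hx hy =>
    obtain ⟨m, rfl⟩ := hx
    obtain ⟨n, rfl⟩ := hy
    exact ⟨m + n, cmb_add g m n⟩
  | neg x _ hx =>
    obtain ⟨m, rfl⟩ := hx
    exact ⟨-m, by simp [cmb]⟩

theorem exists_digits {R : Type*} [AddCommGroup R] {p : ℕ} (hp : 0 < p) {T : Tab}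
    (hT : TabUp T) {g : Fin 4 → R} (hg : AddSubgroup.closure (Set.range g) = ⊤)
    (h : ∀ i, p • g i = ∑ j, T.P i j • g j) (r : R) :
    ∃ d : Fin 4 → Fin p, cmb g (fun j => ((d j : ℕ) : ℤ)) = r := by
  obtain ⟨n, rfl⟩ := exists_cmb hg r
  obtain ⟨c, d, hd⟩ := digits hp hT n
  refine ⟨d, ?_⟩
  rw [hd, cmb_add, cmb_rel h, zero_add]

theorem digits_bij {R : Type*} [AddCommGroup R] {p : ℕ} (hp : 0 < p) (hR : Nat.card R = p ^ 4)
    {T : Tab} (hT : TabUp T) {g : Fin 4 → R} (hg : AddSubgroup.closure (Set.range g) = ⊤)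
    (h : ∀ i, p • g i = ∑ j, T.P i j • g j) :
    Function.Bijective (fun d : Fin 4 → Fin p => cmb g (fun j => ((d j : ℕ) : ℤ))) := by
  have hs : Function.Surjective (fun d : Fin 4 → Fin p => cmb g (fun j => ((d j : ℕ) : ℤ))) :=
    exists_digits hp hT hg h
  have : Finite R := Nat.finite_of_card_ne_zero (by rw [hR]; positivity)
  refine (Function.Surjective.bijective_of_nat_card_le hs ?_)
  rw [hR]; simp

/-- Multiplication of coefficient vectors. -/
def mulT (T : Tab) (m n : Fin 4 → ℤ) : Fin 4 → ℤ := fun k => ∑ i, ∑ j, m i * n j * (T.M i j k : ℤ)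

theorem cmb_mul {R : Type*} [NonUnitalRing R] {T : Tab} {g : Fin 4 → R}
    (hm : ∀ i j, g i * g j = ∑ k, T.M i j k • g k) (m n : Fin 4 → ℤ) :
    cmb g m * cmb g n = cmb g (mulT T m n) := by
  have h : ∀ i j, g i * g j = ∑ k, (T.M i j k : ℤ) • g k := by
    intro i j; rw [hm i j]; simp
  simp only [cmb, mulT, Finset.sum_mul_sum, Finset.sum_smul, smul_mul_smul_comm, h,
    Finset.smul_sum, smul_smul]
  rw [Finset.sum_comm' (s' := fun _ => Finset.univ) (t' := Finset.univ) (by simp)]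
  have e : ∀ i : Fin 4, ∑ j, ∑ k, (m i * n j * (T.M i j k : ℤ)) • g k
      = ∑ k, ∑ j, (m i * n j * (T.M i j k : ℤ)) • g k := fun i => Finset.sum_comm
  rw [Finset.sum_comm]
  simp only [e]
  rw [Finset.sum_comm]

end Pool.NR.T67
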