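import Pool.Agent.H67.NR.Tools

namespace Pool.NR

universe u

open T67

namespace X467

section grp

variable {R : Type u} [AddCommGroup R] {p : ℕ}

theorem card_pow [hp : Fact p.Prime] (hR : Nat.card R = p ^ 4) (S : AddSubgroup R) :
    ∃ k ≤ 4, Nat.card S = p ^ k := by
  have h : Nat.card S ∣ p ^ 4 := hR ▸ AddSubgroup.card_addSubgroup_dvd_card S
  exact (Nat.dvd_prime_pow hp.out).1 h

omit [AddCommGroup R] in
theorem fin_of [hp : Fact p.Prime] (hR : Nat.card R = p ^ 4) : Finite R :=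
  Nat.finite_of_card_ne_zero (by rw [hR]; exact pow_ne_zero _ hp.out.ne_zero)

theorem card_lt [hp : Fact p.Prime] (hR : Nat.card R = p ^ 4) {S T : AddSubgroup R} (h : S < T) :
    p * Nat.card S ≤ Nat.card T := by
  have hf : Finite R := fin_of hR
  obtain ⟨a, _, ha⟩ := card_pow hR S
  obtain ⟨b, _, hb⟩ := card_pow hR T
  have hlt : Nat.card S < Nat.card T := by
    by_contra hcon
    push Not at hcon
    exact h.ne (AddSubgroup.eq_of_le_of_card_ge h.le hcon)
  rw [ha, hb] at hlt ⊢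
  have hab : a < b := (Nat.pow_lt_pow_iff_right hp.out.one_lt).1 hlt
  calc p * p ^ a = p ^ (a + 1) := by ring
    _ ≤ p ^ b := Nat.pow_le_pow_right hp.out.pos hab

/-- one more generator fills a subgroup of index `p`. -/
theorem fill [hp : Fact p.Prime] (hR : Nat.card R = p ^ 4) {S T : AddSubgroup R} (h : S ≤ T)
    (hc : Nat.card T ≤ p * Nat.card S) {w : R} (hw : w ∈ T) (hw' : w ∉ S) {s : R} (hs : s ∈ T) :
    ∃ (n : ℤ) (t : R), t ∈ S ∧ s = n • w + t := by
  have hf : Finite R := fin_of hR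
  have h1 : S < S ⊔ AddSubgroup.zmultiples w := by
    refine lt_of_le_of_ne le_sup_left fun e => hw' ?_
    rw [e]
    exact AddSubgroup.mem_sup_right (AddSubgroup.mem_zmultiples w)
  have h2 : S ⊔ AddSubgroup.zmultiples w ≤ T := by
    refine sup_le h ?_
    rw [AddSubgroup.zmultiples_le]
    exact hw
  have h3 : S ⊔ AddSubgroup.zmultiples w = T :=
    AddSubgroup.eq_of_le_of_card_ge h2 (hc.trans (card_lt hR h1))
  rw [← h3, AddSubgroup.mem_sup] at hs
  obtain ⟨t, ht, y, hy, rfl⟩ := hs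
  obtain ⟨n, rfl⟩ := AddSubgroup.mem_zmultiples_iff.1 hy
  exact ⟨n, t, ht, add_comm _ _⟩

theorem card_sup_le [hp : Fact p.Prime] (S : AddSubgroup R) [Finite S] {x : R} (hx : p • x ∈ S) :
    Nat.card (S ⊔ AddSubgroup.zmultiples x : AddSubgroup R) ≤ p * Nat.card S := by
  have hp0 : 0 < p := hp.out.pos
  let f : Fin p × S → (S ⊔ AddSubgroup.zmultiples x : AddSubgroup R) := fun a =>
    ⟨(a.1 : ℕ) • x + a.2, add_mem (AddSubgroup.nsmul_mem _
      (AddSubgroup.mem_sup_right (AddSubgroup.mem_zmultiples x)) _)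
      (AddSubgroup.mem_sup_left a.2.2)⟩
  have hf : Function.Surjective f := by
    rintro ⟨y, hy⟩
    obtain ⟨t, ht, y', hy', rfl⟩ := AddSubgroup.mem_sup.1 hy
    obtain ⟨n, rfl⟩ := AddSubgroup.mem_zmultiples_iff.1 hy'
    have hpos : (0 : ℤ) < p := by exact_mod_cast hp0
    have h1 := Int.emod_nonneg n hpos.ne'
    have h2 := Int.emod_lt_of_pos n hpos
    have h3 := Int.emod_add_mul_ediv n p
    refine ⟨(⟨(n % p).toNat, by omega⟩, ⟨(n / p) • (p • x) + t,
      add_mem (AddSubgroup.zsmul_mem _ hx _) ht⟩), ?_⟩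
    apply Subtype.ext
    change (n % p).toNat • x + ((n / p) • (p • x) + t) = t + n • x
    have e : ((n % p).toNat : ℕ) • x = (n % p) • x := by
      rw [← natCast_zsmul, Int.toNat_of_nonneg h1]
    rw [e]
    have e2 : n • x = (n % p) • x + (n / p) • (p • x) := by
      rw [← natCast_zsmul x p, smul_smul, ← add_smul]
      congr 1
      linarith [mul_comm (n / (p : ℤ)) p]
    rw [e2]; abel
  have := Nat.card_le_card_of_surjective f hf
  simpa using this

theorem val_smul [Fact p.Prime] {z : R} (hz : p • z = 0) (n : ℤ) : (n : ZMod p).val • z = n • z := by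
  have h1 : (((n : ZMod p).val : ℕ) : ℤ) = n % p := ZMod.val_intCast n
  have h3 := Int.emod_add_mul_ediv n p
  have hz' : (p : ℤ) • z = 0 := by rw [natCast_zsmul]; exact hz
  rw [← natCast_zsmul, h1]
  conv_rhs => rw [← h3]
  rw [add_smul, mul_comm, mul_smul, hz', smul_zero, add_zero]

theorem val_smul2 [hp : Fact p.Prime] {z : R} (hz : p ^ 2 • z = 0) (n : ℤ) :
    (n : ZMod (p ^ 2)).val • z = n • z := by
  have : NeZero (p ^ 2) := ⟨pow_ne_zero _ hp.out.ne_zero⟩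
  have h1 : (((n : ZMod (p ^ 2)).val : ℕ) : ℤ) = n % ((p ^ 2 : ℕ) : ℤ) := ZMod.val_intCast n
  have h3 := Int.emod_add_mul_ediv n ((p ^ 2 : ℕ) : ℤ)
  have hz' : ((p ^ 2 : ℕ) : ℤ) • z = 0 := by rw [natCast_zsmul]; exact hz
  rw [← natCast_zsmul, h1]
  conv_rhs => rw [← h3]
  rw [add_smul, mul_comm, mul_smul, hz', smul_zero, add_zero]

/-- coprime multiples. -/
theorem smul_ne [hp : Fact p.Prime] {z : R} (hz : p • z = 0) (h0 : z ≠ 0) {n : ℤ}
    (hn : ¬ (p : ℤ) ∣ n) : n • z ≠ 0 := by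
  intro h
  have hpr : IsCoprime (p : ℤ) n :=
    (Nat.prime_iff_prime_int.1 hp.out).coprime_iff_not_dvd.2 hn
  obtain ⟨a, b, hab⟩ := hpr
  apply h0
  have hz' : (p : ℤ) • z = 0 := by rw [natCast_zsmul]; exact hz
  calc z = (1 : ℤ) • z := (one_smul _ _).symm
    _ = (a * p + b * n) • z := by rw [hab]
    _ = 0 := by rw [add_smul, mul_smul, mul_smul, hz', h, smul_zero, smul_zero, add_zero]

end grp

section ring

variable {R : Type u} [NonUnitalRing R] {p : ℕ}

theorem Dd_le {S T : AddSubgroup R} :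
    Dd p S ≤ T ↔ ∀ s ∈ S, p • s ∈ T ∧ ∀ r : R, r * s ∈ T ∧ s * r ∈ T := by
  unfold Dd
  rw [AddSubgroup.closure_le]
  constructor
  · intro h s hs
    exact ⟨h ⟨s, hs, Or.inl rfl⟩, fun r => ⟨h ⟨s, hs, Or.inr ⟨r, Or.inl rfl⟩⟩,
      h ⟨s, hs, Or.inr ⟨r, Or.inr rfl⟩⟩⟩⟩
  · rintro h x ⟨s, hs, rfl | ⟨r, rfl | rfl⟩⟩
    · exact (h s hs).1
    · exact ((h s hs).2 r).1
    · exact ((h s hs).2 r).2

/-- the kernel of multiplication by `p`. -/
def kp (p : ℕ) (R : Type u) [NonUnitalRing R] : AddSubgroup R where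
  carrier := {s | p • s = 0}
  zero_mem' := by simp
  add_mem' := by
    intro a b ha hb
    simp only [Set.mem_ofPred_eq] at *
    rw [smul_add, ha, hb, add_zero]
  neg_mem' := by
    intro a ha
    simp only [Set.mem_ofPred_eq] at *
    rw [smul_neg, ha, neg_zero]

theorem mem_kp {s : R} : s ∈ kp p R ↔ p • s = 0 := Iff.rfl

/-- the closure from a spanning statement -/
theorem closure_four {x y w z : R} (h : ∀ r : R, ∃ a b c d : ℤ, r = a • x + b • y + c • w + d • z) :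
    AddSubgroup.closure (Set.range ![x, y, w, z]) = ⊤ := by
  rw [eq_top_iff]
  intro r _
  obtain ⟨a, b, c, d, rfl⟩ := h r
  have m0 : x ∈ AddSubgroup.closure (Set.range ![x, y, w, z]) :=
    AddSubgroup.subset_closure ⟨0, rfl⟩
  have m1 : y ∈ AddSubgroup.closure (Set.range ![x, y, w, z]) :=
    AddSubgroup.subset_closure ⟨1, rfl⟩
  have m2 : w ∈ AddSubgroup.closure (Set.range ![x, y, w, z]) :=
    AddSubgroup.subset_closure ⟨2, rfl⟩
  have m3 : z ∈ AddSubgroup.closure (Set.range ![x, y, w, z]) :=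
    AddSubgroup.subset_closure ⟨3, rfl⟩
  exact add_mem (add_mem (add_mem (AddSubgroup.zsmul_mem _ m0 a) (AddSubgroup.zsmul_mem _ m1 b))
    (AddSubgroup.zsmul_mem _ m2 c)) (AddSubgroup.zsmul_mem _ m3 d)

theorem tabA {x y w z : R} {L : ZMod (p ^ 2)} {b c d : ZMod p}
    (h : ∀ r : R, ∃ a b c d : ℤ, r = a • x + b • y + c • w + d • z)
    (px : p • x = w) (py : p • y = 0) (pw : p • w = z) (pz : p • z = 0)
    (xx : x * x = L.val • w) (xy : x * y = b.val • z) (xw : x * w = L.val • z) (xz : x * z = 0)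
    (yx : y * x = c.val • z) (yy : y * y = d.val • z) (yw : y * w = 0) (yz : y * z = 0)
    (wx : w * x = L.val • z) (wy : w * y = 0) (ww : w * w = 0) (wz : w * z = 0)
    (zx : z * x = 0) (zy : z * y = 0) (zw : z * w = 0) (zz : z * z = 0) :
    HasTab p R (tab4a L b c d) := by
  refine ⟨![x, y, w, z], closure_four h, ?_, ?_⟩
  · intro i
    fin_cases i <;> simp [tab4a, Fin.sum_univ_four, px, py, pw, pz]
  · intro i j
    fin_cases i <;> fin_cases j <;> simp [tab4a, Fin.sum_univ_four, *]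

theorem tabB {x y w z : R} {b c d e : ZMod p}
    (h : ∀ r : R, ∃ a b c d : ℤ, r = a • x + b • y + c • w + d • z)
    (px : p • x = d.val • z) (py : p • y = e.val • z) (pw : p • w = 0) (pz : p • z = 0)
    (xx : x * x = w) (xy : x * y = 0) (xw : x * w = z) (xz : x * z = 0)
    (yx : y * x = b.val • z) (yy : y * y = c.val • z) (yw : y * w = 0) (yz : y * z = 0)
    (wx : w * x = z) (wy : w * y = 0) (ww : w * w = 0) (wz : w * z = 0)
    (zx : z * x = 0) (zy : z * y = 0) (zw : z * w = 0) (zz : z * z = 0) :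
    HasTab p R (tab4b b c d e) := by
  refine ⟨![x, y, w, z], closure_four h, ?_, ?_⟩
  · intro i
    fin_cases i <;> simp [tab4b, Fin.sum_univ_four, px, py, pw, pz]
  · intro i j
    fin_cases i <;> fin_cases j <;> simp [tab4b, Fin.sum_univ_four, *]

end ring

end X467

open X467

theorem x4 (hF : FILStmt.{u}) : X4Stmt.{u} := by
  intro p hp R _ hR hN h1 h2
  have hf : Finite R := fin_of hR
  have hpp : p.Prime := hp.out
  set Φ := Dd p (⊤ : AddSubgroup R) with hΦ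
  set Ψ := Dd p Φ with hΨ
  obtain ⟨-, -, t1⟩ := hF p R hR hN ⊤ (fun s _ r => ⟨trivial, trivial⟩)
  obtain ⟨l2, -, t2⟩ := hF p R hR hN Φ t1
  obtain ⟨l3, n3, -⟩ := hF p R hR hN Ψ t2
  have hΨb : Ψ ≠ ⊥ := by
    intro e
    rw [e, AddSubgroup.card_bot] at h2
    exact hpp.one_lt.ne h2
  have hD : Dd p Ψ = ⊥ := by
    have := card_lt hR (lt_of_le_of_ne l3 (n3 hΨb))
    rw [h2] at this
    have h3 : Nat.card (Dd p Ψ) ≤ 1 := by
      by_contra hc
      push Not at hc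
      have : p * 2 ≤ p * Nat.card (Dd p Ψ) := Nat.mul_le_mul_left _ hc
      have := hpp.pos
      omega
    exact (AddSubgroup.eq_of_le_of_card_ge bot_le (by rw [AddSubgroup.card_bot]; exact h3)).symm
  have F1 := Dd_le.1 (le_refl Φ)
  have F1p : ∀ r : R, p • r ∈ Φ := fun r => (F1 r trivial).1
  have F1m : ∀ r s : R, r * s ∈ Φ := fun r s => ((F1 s trivial).2 r).1
  have F2 := Dd_le.1 (le_refl Ψ)
  have F3 := Dd_le.1 hD.le
  have F3p : ∀ s ∈ Ψ, p • s = 0 := fun s hs => (F3 s hs).1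
  have F3l : ∀ s ∈ Ψ, ∀ r : R, r * s = 0 := fun s hs r => ((F3 s hs).2 r).1
  have F3r : ∀ s ∈ Ψ, ∀ r : R, s * r = 0 := fun s hs r => ((F3 s hs).2 r).2
  have genΨ : ∀ z ∈ Ψ, z ≠ 0 → ∀ s ∈ Ψ, ∃ n : ℤ, s = n • z := by
    intro z hz hz0 s hs
    obtain ⟨n, t, ht, e⟩ := fill hR (S := ⊥) (T := Ψ) bot_le
      (by rw [h2, AddSubgroup.card_bot, mul_one]) hz (by rwa [AddSubgroup.mem_bot]) hs
    rw [AddSubgroup.mem_bot] at ht
    exact ⟨n, by rw [e, ht, add_zero]⟩
  have genΦ : ∀ w ∈ Φ, w ∉ Ψ → ∀ s ∈ Φ, ∃ (n : ℤ) (t : R), t ∈ Ψ ∧ s = n • w + t := by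
    intro w hw hw' s hs
    exact fill hR l2 (by rw [h1, h2, sq]) hw hw' hs
  have genR : ∀ x : R, x ∉ Φ → ∀ y : R, y ∉ Φ ⊔ AddSubgroup.zmultiples x → ∀ r : R,
      ∃ (m n : ℤ) (t : R), t ∈ Φ ∧ r = m • x + n • y + t := by
    intro x hx y hy r
    have hlt : Φ < Φ ⊔ AddSubgroup.zmultiples x := by
      refine lt_of_le_of_ne le_sup_left fun e => hx ?_
      rw [e]
      exact AddSubgroup.mem_sup_right (AddSubgroup.mem_zmultiples x)
    have hc := card_lt hR hlt
    rw [h1] at hc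
    obtain ⟨n, t, ht, e⟩ := fill hR (S := Φ ⊔ AddSubgroup.zmultiples x) (T := ⊤) le_top
      (by
        rw [AddSubgroup.card_top, hR]
        calc p ^ 4 = p * (p * p ^ 2) := by ring
          _ ≤ _ := Nat.mul_le_mul_left _ hc) (w := y) trivial hy (s := r) trivial
    obtain ⟨t', ht', u, hu, rfl⟩ := AddSubgroup.mem_sup.1 ht
    obtain ⟨m, rfl⟩ := AddSubgroup.mem_zmultiples_iff.1 hu
    exact ⟨m, n, t', ht', by rw [e]; abel⟩
  have exY : ∀ x : R, ∃ y : R, y ∉ Φ ⊔ AddSubgroup.zmultiples x := by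
    intro x
    by_contra hc
    push Not at hc
    have e : Φ ⊔ AddSubgroup.zmultiples x = ⊤ := eq_top_iff.2 fun y _ => hc y
    have := card_sup_le (p := p) Φ (F1p x)
    rw [e, AddSubgroup.card_top, hR, h1] at this
    have h5 : p * p ^ 2 < p ^ 4 := by
      calc p * p ^ 2 = p ^ 3 := by ring
        _ < p ^ 4 := Nat.pow_lt_pow_right hpp.one_lt (by norm_num)
    omega
  by_cases hg : ∀ s ∈ Φ, p • s = 0
  · -- case B
    right
    have hne : ∃ s ∈ Φ, ∃ r : R, r * s ≠ 0 ∨ s * r ≠ 0 := by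
      by_contra hc
      push Not at hc
      apply hΨb
      rw [eq_bot_iff, hΨ, Dd_le]
      intro s hs
      refine ⟨?_, fun r => ⟨?_, ?_⟩⟩
      · rw [AddSubgroup.mem_bot]; exact hg s hs
      · rw [AddSubgroup.mem_bot]; exact (hc s hs r).1
      · rw [AddSubgroup.mem_bot]; exact (hc s hs r).2
    have hw0 : ∃ w0 ∈ Φ, w0 ∉ Ψ := by
      by_contra hc
      push Not at hc
      have := AddSubgroup.card_le_of_le (H := Φ) (K := Ψ) hc
      rw [h1, h2] at this
      have := hpp.one_lt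
      nlinarith
    obtain ⟨w0, hw0Φ, hw0Ψ⟩ := hw0
    -- left and right action do not depend on the element of Φ outside Ψ
    have nd : ∀ s ∈ Φ, s ∉ Ψ → ∀ w ∈ Φ, w ∉ Ψ → ∃ n : ℤ, ¬ (p : ℤ) ∣ n ∧
        (∀ r : R, r * s = n • (r * w)) ∧ (∀ r : R, s * r = n • (w * r)) := by
      intro s hs hs' w hw hw'
      obtain ⟨n, t, ht, e⟩ := genΦ w hw hw' s hs
      refine ⟨n, ?_, ?_, ?_⟩
      · rintro ⟨k, rfl⟩
        apply hs'
        rw [e, mul_comm, mul_smul, natCast_zsmul, hg w hw, smul_zero, zero_add]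
        exact ht
      · intro r
        rw [e, mul_add, F3l t ht, add_zero, mul_smul_comm]
      · intro r
        rw [e, add_mul, F3r t ht, add_zero, smul_mul_assoc]
    have actl : ∀ r : R, ∀ s ∈ Φ, ∀ w ∈ Φ, w ∉ Ψ → r * s ≠ 0 → r * w ≠ 0 := by
      intro r s hs w hw hw' h h'
      by_cases hs' : s ∈ Ψ
      · exact h (F3l s hs' r)
      · obtain ⟨n, -, e, -⟩ := nd s hs hs' w hw hw'
        exact h (by rw [e r, h', smul_zero])
    have actr : ∀ r : R, ∀ s ∈ Φ, ∀ w ∈ Φ, w ∉ Ψ → s * r ≠ 0 → w * r ≠ 0 := by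
      intro r s hs w hw hw' h h'
      by_cases hs' : s ∈ Ψ
      · exact h (F3r s hs' r)
      · obtain ⟨n, -, -, e⟩ := nd s hs hs' w hw hw'
        exact h (by rw [e r, h', smul_zero])
    have hab : (∃ r : R, r * w0 ≠ 0) ∨ ∃ r : R, w0 * r ≠ 0 := by
      obtain ⟨s, hs, r, h | h⟩ := hne
      · exact Or.inl ⟨r, actl r s hs w0 hw0Φ hw0Ψ h⟩
      · exact Or.inr ⟨r, actr r s hs w0 hw0Φ hw0Ψ h⟩
    -- p R ≤ Ψ
    have hpR : ∀ r : R, p • r ∈ Ψ := by
      intro v
      by_contra hc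
      rcases hab with ⟨r, hr⟩ | ⟨r, hr⟩
      · exact actl r w0 hw0Φ (p • v) (F1p v) hc hr (by
          rw [mul_smul_comm]; exact hg _ (F1m r v))
      · exact actr r w0 hw0Φ (p • v) (F1p v) hc hr (by
          rw [smul_mul_assoc]; exact hg _ (F1m v r))
    -- a product outside Ψ
    obtain ⟨v, v', hvv⟩ : ∃ v v' : R, v * v' ∉ Ψ := by
      by_contra hc
      push Not at hc
      apply hw0Ψ
      have : Φ ≤ Ψ := by
        rw [hΦ, Dd_le]
        intro s _
        exact ⟨hpR s, fun r => ⟨hc r s, hc s r⟩⟩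
      exact this hw0Φ
    -- both actions are nonzero
    obtain ⟨x, hx⟩ : ∃ x : R, x * w0 ≠ 0 := by
      rcases hab with h | ⟨r, hr⟩
      · exact h
      · refine ⟨v, ?_⟩
        have h3 := actr r w0 hw0Φ (v * v') (F1m _ _) hvv hr
        rw [mul_assoc] at h3
        exact actl v (v' * r) (F1m _ _) w0 hw0Φ hw0Ψ h3
    have X1 : ∀ s ∈ Φ, s ∉ Ψ → x * s ≠ 0 := fun s hs hs' => actl x w0 hw0Φ s hs hs' hx
    have hxv : x * v ∉ Ψ := by
      intro h
      have h3 := X1 (v * v') (F1m _ _) hvv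
      rw [← mul_assoc] at h3
      exact h3 (F3r _ h v')
    have hxx : x * x ∉ Ψ := by
      intro h
      have h3 := X1 (x * v) (F1m _ _) hxv
      rw [← mul_assoc] at h3
      exact h3 (F3r _ h v)
    set w := x * x with hw
    have hwΦ : w ∈ Φ := F1m x x
    set z := x * w with hz
    have hzΨ : z ∈ Ψ := ((F2 w hwΦ).2 x).1
    have hz0 : z ≠ 0 := X1 w hwΦ hxx
    have pz : p • z = 0 := F3p z hzΨ
    have wx : w * x = z := by rw [hw, mul_assoc]
    have xz : x * z = 0 := F3l z hzΨ x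
    have ww : w * w = 0 := by
      conv_lhs => rw [hw]
      rw [mul_assoc, ← hw, ← hz, xz]
    -- an element with s x = 0 lies in Ψ
    have Sx : ∀ s ∈ Φ, s * x = 0 → s ∈ Ψ := by
      intro s hs h
      by_contra hc
      exact actr x w hwΦ s hs hc (by rw [wx]; exact hz0) h
    have hxΦ : x ∉ Φ := by
      intro h
      exact hxx ((F2 x h).2 x).1
    obtain ⟨y0, hy0⟩ := exY x
    obtain ⟨m, hm⟩ := genΨ z hzΨ hz0 (y0 * w) ((F2 w hwΦ).2 y0).1
    set y1 := y0 - m • x with hy1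
    have y1w : y1 * w = 0 := by
      rw [hy1, sub_mul, hm, smul_mul_assoc, ← hz, sub_self]
    have y1x : y1 * x ∈ Ψ := by
      apply Sx _ (F1m _ _)
      rw [mul_assoc, ← hw, y1w]
    have xy1 : x * y1 ∈ Ψ := by
      apply Sx _ (F1m _ _)
      rw [mul_assoc]
      exact F3l _ y1x x
    have wy1 : w * y1 = 0 := by
      rw [hw, mul_assoc]
      exact F3l _ xy1 x
    obtain ⟨t, ht⟩ := genΨ z hzΨ hz0 (x * y1) xy1
    set y := y1 - t • w with hy
    have xy : x * y = 0 := by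
      rw [hy, mul_sub, ht, mul_smul_comm, ← hz, sub_self]
    have yw : y * w = 0 := by
      rw [hy, sub_mul, y1w, smul_mul_assoc, ww, smul_zero, sub_zero]
    have wy : w * y = 0 := by
      rw [hy, mul_sub, wy1, mul_smul_comm, ww, smul_zero, sub_zero]
    have yx : y * x ∈ Ψ := by
      apply Sx _ (F1m _ _)
      rw [mul_assoc, ← hw, yw]
    have yy : y * y ∈ Ψ := by
      apply Sx _ (F1m _ _)
      rw [mul_assoc]
      exact F3l _ yx y
    have hyT : y ∉ Φ ⊔ AddSubgroup.zmultiples x := by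
      intro h
      apply hy0
      have : y0 = y + t • w + m • x := by rw [hy, hy1]; abel
      rw [this]
      exact add_mem (add_mem h (AddSubgroup.mem_sup_left (AddSubgroup.zsmul_mem _ hwΦ _)))
        (AddSubgroup.zsmul_mem _ (AddSubgroup.mem_sup_right (AddSubgroup.mem_zmultiples x)) _)
    obtain ⟨b, hb⟩ := genΨ z hzΨ hz0 _ yx
    obtain ⟨c, hc⟩ := genΨ z hzΨ hz0 _ yy
    obtain ⟨d, hd⟩ := genΨ z hzΨ hz0 _ (hpR x)
    obtain ⟨e, he⟩ := genΨ z hzΨ hz0 _ (hpR y)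
    refine ⟨b, c, d, e, tabB (x := x) (y := y) (w := w) (z := z) ?_ ?_ ?_ (hg w hwΦ) pz rfl xy rfl
      xz ?_ ?_ yw (F3l z hzΨ y) wx wy ww (F3l z hzΨ w) (F3r z hzΨ x) (F3r z hzΨ y)
      (F3r z hzΨ w) (F3l z hzΨ z)⟩
    · intro r
      obtain ⟨m, n, t, ht, rfl⟩ := genR x hxΦ y hyT r
      obtain ⟨k, t', ht', rfl⟩ := genΦ w hwΦ hxx t ht
      obtain ⟨l, rfl⟩ := genΨ z hzΨ hz0 t' ht'
      exact ⟨m, n, k, l, by abel⟩
    · rw [val_smul pz, hd]
    · rw [val_smul pz, he]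
    · rw [val_smul pz, hb]
    · rw [val_smul pz, hc]
  · -- case A
    left
    push Not at hg
    obtain ⟨s0, hs0, hs0'⟩ := hg
    have hx : ∃ x : R, p • x ∉ Ψ := by
      by_contra hc
      push Not at hc
      have : Φ ≤ kp p R := by
        rw [hΦ, Dd_le]
        intro s _
        refine ⟨?_, fun r => ⟨?_, ?_⟩⟩
        · rw [mem_kp]; exact F3p _ (hc s)
        · rw [mem_kp, ← mul_smul_comm]; exact F3l _ (hc s) r
        · rw [mem_kp, ← smul_mul_assoc]; exact F3r _ (hc s) r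
      exact hs0' (this hs0)
    obtain ⟨x, hx⟩ := hx
    set w := p • x with hw
    have hwΦ : w ∈ Φ := F1p x
    have hxΦ : x ∉ Φ := fun h => hx (F2 x h).1
    set z := p • w with hz
    have hzΨ : z ∈ Ψ := (F2 w hwΦ).1
    have hz0 : z ≠ 0 := by
      intro e
      obtain ⟨n, t, ht, rfl⟩ := genΦ w hwΦ hx s0 hs0
      apply hs0'
      rw [smul_add, F3p t ht, add_zero, smul_comm, ← hz, e, smul_zero]
    have pz : p • z = 0 := F3p z hzΨ
    have A1 : ∀ s ∈ Φ, p • s = 0 → ∃ m : ℤ, s = m • z := by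
      intro s hs hps
      obtain ⟨n, t, ht, rfl⟩ := genΦ w hwΦ hx s hs
      obtain ⟨m, rfl⟩ := genΨ z hzΨ hz0 t ht
      have e : n • z = 0 := by
        rw [smul_add, F3p _ ht, add_zero, smul_comm, ← hz] at hps
        exact hps
      have hd : (p : ℤ) ∣ n := by
        by_contra hc
        exact smul_ne pz hz0 hc e
      obtain ⟨k, rfl⟩ := hd
      refine ⟨k + m, ?_⟩
      rw [add_smul, mul_comm, mul_smul, natCast_zsmul, ← hz]
    have A2 : ∀ s ∈ Φ, ∃ m : ℤ, s = m • w := by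
      intro s hs
      obtain ⟨n, t, ht, rfl⟩ := genΦ w hwΦ hx s hs
      obtain ⟨m, rfl⟩ := genΨ z hzΨ hz0 t ht
      refine ⟨n + m * p, ?_⟩
      rw [add_smul, mul_smul, natCast_zsmul, ← hz]
    obtain ⟨y0, hy0⟩ := exY x
    obtain ⟨k, hk⟩ := A2 (p • y0) (F1p y0)
    set y := y0 - k • x with hy
    have py : p • y = 0 := by
      rw [hy, smul_sub, hk, hw, smul_comm, sub_self]
    have hyT : y ∉ Φ ⊔ AddSubgroup.zmultiples x := by
      intro h
      apply hy0
      have : y0 = y + k • x := by rw [hy]; abel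
      rw [this]
      exact add_mem h (AddSubgroup.zsmul_mem _
        (AddSubgroup.mem_sup_right (AddSubgroup.mem_zmultiples x)) _)
    obtain ⟨l, hl⟩ := A2 (x * x) (F1m x x)
    obtain ⟨b, hb⟩ := A1 (x * y) (F1m x y) (by rw [← mul_smul_comm, py, mul_zero])
    obtain ⟨c, hc⟩ := A1 (y * x) (F1m y x) (by rw [← smul_mul_assoc, py, zero_mul])
    obtain ⟨d, hd⟩ := A1 (y * y) (F1m y y) (by rw [← smul_mul_assoc, py, zero_mul])
    have p2w : p ^ 2 • w = 0 := by
      rw [sq, mul_smul, ← hz, pz]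
    have p2z : p ^ 2 • z = 0 := by
      rw [sq, mul_smul, pz, smul_zero]
    have xw : x * w = l • z := by
      rw [hw, mul_smul_comm, hl, smul_comm, ← hz]
    have wx : w * x = l • z := by
      rw [hw, smul_mul_assoc, hl, smul_comm, ← hz]
    refine ⟨l, b, c, d, tabA (x := x) (y := y) (w := w) (z := z) ?_ rfl py rfl pz ?_ ?_ ?_
      (F3l z hzΨ x) ?_ ?_ ?_ (F3l z hzΨ y) ?_ ?_ ?_ (F3l z hzΨ w) (F3r z hzΨ x) (F3r z hzΨ y)
      (F3r z hzΨ w) (F3l z hzΨ z)⟩
    · intro r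
      obtain ⟨m, n, t, ht, rfl⟩ := genR x hxΦ y hyT r
      obtain ⟨k, rfl⟩ := A2 t ht
      exact ⟨m, n, k, 0, by simp⟩
    · rw [val_smul2 p2w, hl]
    · rw [val_smul pz, hb]
    · rw [val_smul2 p2z, xw]
    · rw [val_smul pz, hc]
    · rw [val_smul pz, hd]
    · rw [hw, mul_smul_comm, ← smul_mul_assoc, py, zero_mul]
    · rw [val_smul2 p2z, wx]
    · rw [hw, smul_mul_assoc, ← mul_smul_comm, py, mul_zero]
    · rw [hw, smul_mul_assoc, xw, smul_comm, pz, smul_zero]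

end Pool.NR
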